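import Mathlib
import Pool.Agent.X94.FrG

/-!
# The sextic Freud string equation has exactly one positive solution (MP_d042fc_an, Q1)

For all real `τ` and `t` (in particular for `t = -κ τ²`, for all real `κ, τ`) the fourth-order
string equation (E) of the weight `exp (-x⁶ + τ x⁴ + t x²)` has exactly one positive solution,
namely the sequence of recurrence coefficients of the monic orthogonal polynomials of the weight,
for which `b 1 = μ₂ / μ₀` and `b 2 = μ₄ / μ₂ - μ₂ / μ₀`.

Idea of the proof. For a positive solution `b`, let `L` be the linear functional on polynomials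
for which the polynomials of the recurrence are orthogonal. Equation (E) is equivalent to the
Pearson equation `L (V' p) = L (p')`, `V = x⁶ - τ x⁴ - t x²`. Equation (E) also gives
`b n ≤ B n`. Gauss quadratures (positive) of the truncated Jacobi matrices converge on Schwartz
functions, and in the limit the Pearson equation holds on all Schwartz functions. Hence the
quadratures converge, up to a constant factor, to the integral against `exp (-V)` on smooth
compactly supported functions, and by positivity `L` is the normalised integral against the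
weight.
-/

namespace Pool.Agent.Results.MP_d042fc_an.UniquePositive

open Polynomial MeasureTheory

/-- The symmetric sextic Freud weight. -/
noncomputable def omega (τ t x : ℝ) : ℝ := Real.exp (-x ^ 6 + τ * x ^ 4 + t * x ^ 2)

/-- Its moments. -/
noncomputable def mu (τ t : ℝ) (k : ℕ) : ℝ := ∫ x : ℝ, x ^ k * omega τ t x

/-- `b (n - 1)`, with the convention `b (-1) = 0`. -/
def prev (b : ℕ → ℝ) : ℕ → ℝ
  | 0 => 0
  | n + 1 => b n

/-- The equation (E) with index `n + 1`. -/
def StringEq (τ t : ℝ) (b : ℕ → ℝ) (n : ℕ) : Prop :=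
  6 * b (n + 1) * (prev b n * b n + b n ^ 2 + 2 * b n * b (n + 1) + b n * b (n + 2) +
    b (n + 1) ^ 2 + 2 * b (n + 1) * b (n + 2) + b (n + 2) ^ 2 + b (n + 2) * b (n + 3)) -
    4 * τ * b (n + 1) * (b n + b (n + 1) + b (n + 2)) - 2 * t * b (n + 1) = n + 1

/-- A positive solution of (E): `b 0 = 0`, `b n > 0` for `n ≥ 1`, and (E) for all `n ≥ 1`. -/
structure IsPositiveSolution (τ t : ℝ) (b : ℕ → ℝ) : Prop where
  zero : b 0 = 0
  pos : ∀ n, 1 ≤ n → 0 < b n
  eqn : ∀ n, StringEq τ t b n

/-- The monic polynomials of the recurrence `P (n + 1) = x P n - β n P (n - 1)`. -/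
noncomputable def poly (β : ℕ → ℝ) : ℕ → ℝ[X]
  | 0 => 1
  | 1 => X
  | n + 2 => X * poly β (n + 1) - C (β (n + 1)) * poly β n

/-- `β` is the sequence of recurrence coefficients of the weight: `β 0 = 0` and the monic
polynomials of the recurrence are orthogonal with respect to the weight. -/
def IsRecurrence (τ t : ℝ) (β : ℕ → ℝ) : Prop :=
  β 0 = 0 ∧ ∀ m n, m ≠ n → ∫ x : ℝ, (poly β m).eval x * (poly β n).eval x * omega τ t x = 0

lemma omega_eq (τ t x : ℝ) : omega τ t x = Pool.Agent.X94.Freud.W τ t x := by
  unfold omega Pool.Agent.X94.Freud.W Pool.Agent.X94.Freud.V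
  congr 1
  ring

lemma mu_eq (τ t : ℝ) (k : ℕ) : mu τ t k = Pool.Agent.X94.Freud.mu τ t k := by
  unfold mu Pool.Agent.X94.Freud.mu
  simp only [omega_eq]

lemma poly_eq (β : ℕ → ℝ) (n : ℕ) : poly β n = Pool.Agent.X94.Freud.P β n := by
  induction n using Nat.twoStepInduction with
  | zero => rfl
  | one => rfl
  | more n ih1 ih2 => rw [poly, Pool.Agent.X94.Freud.P, ih1, ih2]

lemma sol_iff (τ t : ℝ) (b : ℕ → ℝ) :
    IsPositiveSolution τ t b ↔ Pool.Agent.X94.Freud.PosSol τ t b := by
  have key : b 0 = 0 → ∀ n, prev b n * b n = b (n - 1) * b n := by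
    intro h0 n
    rcases n with _ | n
    · rw [h0]; simp
    · rfl
  constructor
  · intro h
    refine ⟨h.zero, fun n => h.pos (n + 1) (by omega), fun n => ?_⟩
    have := h.eqn n
    unfold StringEq at this
    rw [key h.zero] at this
    exact this
  · intro h
    refine ⟨h.1, fun n hn => ?_, fun n => ?_⟩
    · obtain ⟨m, rfl⟩ : ∃ m, n = m + 1 := ⟨n - 1, by omega⟩
      exact h.2.1 m
    · have := h.2.2 n
      unfold StringEq
      rw [key h.1]
      exact this

/-- For all real `τ` and `t`, equation (E) has exactly one positive solution, and it is the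
sequence of recurrence coefficients of the weight `exp (-x⁶ + τ x⁴ + t x²)`. -/
theorem result (τ t : ℝ) : ∃ β : ℕ → ℝ, IsRecurrence τ t β ∧
    β 1 = mu τ t 2 / mu τ t 0 ∧ β 2 = mu τ t 4 / mu τ t 2 - mu τ t 2 / mu τ t 0 ∧
    ∀ b : ℕ → ℝ, IsPositiveSolution τ t b ↔ b = β := by
  have hs := Pool.Agent.X94.Freud.beta_sol τ t
  refine ⟨Pool.Agent.X94.Freud.beta τ t, ⟨hs.1, ?_⟩, ?_, ?_, fun b => ?_⟩
  · have key : ∀ m n, m < n → ∫ x : ℝ, (poly (Pool.Agent.X94.Freud.beta τ t) m).eval x *
        (poly (Pool.Agent.X94.Freud.beta τ t) n).eval x * omega τ t x = 0 := by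
      intro m n h
      have h1 := Pool.Agent.X94.Freud.beta_orth τ t h
      rw [Pool.Agent.X94.Freud.Lam_apply] at h1
      simpa only [poly_eq, omega_eq, eval_mul] using h1
    intro m n hmn
    rcases lt_or_gt_of_ne hmn with h | h
    · exact key m n h
    · have h1 := key n m h
      rw [← h1]
      refine integral_congr_ae (Filter.Eventually.of_forall fun x => ?_)
      simp only
      ring
  · rw [mu_eq, mu_eq]; exact hs.init.1
  · rw [mu_eq, mu_eq, mu_eq]; exact hs.init.2
  · rw [sol_iff]
    exact ⟨fun h => h.unique hs, fun h => h ▸ hs⟩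

end Pool.Agent.Results.MP_d042fc_an.UniquePositive
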